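import Pool.Agent.W757.BL.Defs

set_option autoImplicit false

namespace Pool.Agent.W293.BL

open Pool.Agent.W757.BL Filter Topology Set

theorem t_MER : S_MER := by
  intro x y x' y' L b e hcv hx hy hext l r hr hl
  have ex : x' = deriv x := by
    funext s
    exact (hcv.dx s).deriv.symm
  have ey : y' = deriv y := by
    funext s
    exact (hcv.dy s).deriv.symm
  have ax : AnalyticAt ℝ x b := hx b (mem_univ b)
  have ay : AnalyticAt ℝ y b := hy b (mem_univ b)
  have mer : MeromorphicAt (fun q => 2 * x' q / y' q - (x q - x b) / (y q - y b)) b := by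
    rw [ex, ey]
    have m1 : MeromorphicAt (fun q => 2 * deriv x q) b :=
      (analyticAt_const.mul ax.deriv).meromorphicAt
    have m2 : MeromorphicAt (fun q => deriv y q) b := ay.deriv.meromorphicAt
    have m3 : MeromorphicAt (fun q => x q - x b) b := (ax.sub analyticAt_const).meromorphicAt
    have m4 : MeromorphicAt (fun q => y q - y b) b := (ay.sub analyticAt_const).meromorphicAt
    exact (m1.div m2).sub (m3.div m4)
  have hle : 𝓝[>] b ≤ 𝓝[≠] b := nhdsWithin_mono _ (fun q hq => ne_of_gt hq)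
  have hle2 : 𝓝[<] b ≤ 𝓝[≠] b := nhdsWithin_mono _ (fun q hq => ne_of_lt hq)
  have hord : 0 ≤ meromorphicOrderAt
      (fun q => 2 * x' q / y' q - (x q - x b) / (y q - y b)) b := by
    by_contra hneg
    rw [not_le] at hneg
    have h1 := (tendsto_cobounded_of_meromorphicOrderAt_neg hneg).mono_left hle
    exact not_tendsto_nhds_of_tendsto_atTop (tendsto_norm_cobounded_atTop.comp h1) _ hr.norm
  obtain ⟨c, hc⟩ := tendsto_nhds_of_meromorphicOrderAt_nonneg mer hord
  have e1 := tendsto_nhds_unique hr (hc.mono_left hle)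
  have e2 := tendsto_nhds_unique hl (hc.mono_left hle2)
  rw [e1, e2]

theorem y_lt (x y x' y' : ℝ → ℝ) (L b e : ℝ) (hcv : Cv x y x' y' L) (hext : Ext x y x' y' L b e)
    {u v : ℝ} (hu : b ≤ u) (huv : u < v) (hv : v ≤ e) : y u < y v := by
  obtain ⟨ξ, hξ, hξe⟩ := exists_hasDerivAt_eq_slope y y' huv
    (fun t _ => (hcv.dy t).continuousAt.continuousWithinAt) (fun t _ => hcv.dy t)
  have h1 := hext.up ξ (lt_of_le_of_lt hu hξ.1) (lt_of_lt_of_le hξ.2 hv)
  rw [hξe] at h1
  have h2 : 0 < v - u := sub_pos.2 huv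
  have h3 := (div_pos_iff_of_pos_right h2).1 h1
  linarith

theorem t_CON : S_CON := by
  intro x y x' y' L b e hcv hcf hx hy hext hode
  have hbe := hext.be
  set G : ℝ → ℝ := fun s => (x s - x b) ^ 2 / (y s - y b) + (x e - x s) ^ 2 / (y e - y s) with hG
  have hpos : ∀ s ∈ Ioo b e, 0 < y s - y b ∧ 0 < y e - y s := fun s hs =>
    ⟨sub_pos.2 (y_lt x y x' y' L b e hcv hext le_rfl hs.1 hs.2.le),
      sub_pos.2 (y_lt x y x' y' L b e hcv hext hs.1.le hs.2 le_rfl)⟩
  have hGd : ∀ s ∈ Ioo b e, HasDerivAt G 0 s := by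
    intro s hs
    obtain ⟨p1, p2⟩ := hpos s hs
    have hy' := hext.up s hs.1 hs.2
    have d1 : HasDerivAt (fun s => (x s - x b) ^ 2) (2 * (x s - x b) * x' s) s := by
      refine (((hcv.dx s).sub_const (x b)).fun_pow 2).congr_deriv ?_
      norm_num
    have d2 : HasDerivAt (fun s => (x e - x s) ^ 2) (2 * (x e - x s) * (-x' s)) s := by
      refine (((hcv.dx s).const_sub (x e)).fun_pow 2).congr_deriv ?_
      norm_num
    have d3 : HasDerivAt (fun s => y s - y b) (y' s) s := (hcv.dy s).sub_const _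
    have d4 : HasDerivAt (fun s => y e - y s) (-y' s) s := (hcv.dy s).const_sub _
    have d5 := (d1.div d3 p1.ne').add (d2.div d4 p2.ne')
    refine d5.congr_deriv ?_
    have ho := hode s hs.1 hs.2
    have ho2 : 2 * x' s = ((x s - x b) / (y s - y b) + (x e - x s) / (y e - y s)) * y' s := by
      rw [← ho]
      field_simp
    have e1 : (2 * (x s - x b) * x' s * (y s - y b) - (x s - x b) ^ 2 * y' s) /
        (y s - y b) ^ 2 + (2 * (x e - x s) * -x' s * (y e - y s) - (x e - x s) ^ 2 * -y' s) /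
        (y e - y s) ^ 2 = ((x s - x b) / (y s - y b) - (x e - x s) / (y e - y s)) *
        (2 * x' s - ((x s - x b) / (y s - y b) + (x e - x s) / (y e - y s)) * y' s) := by
      field_simp
      ring
    rw [e1, ← ho2, sub_self, mul_zero]
  set s₀ := (b + e) / 2 with hs₀
  have hs₀m : s₀ ∈ Ioo b e := ⟨by rw [hs₀]; linarith, by rw [hs₀]; linarith⟩
  have hconst : ∀ s ∈ Ioo b e, G s = G s₀ := by
    intro s hs
    have h1 := Convex.norm_image_sub_le_of_norm_hasDerivWithin_le (f := G) (f' := fun _ => 0)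
      (C := 0) (s := Ioo b e) (x := s₀) (y := s) (fun t ht => (hGd t ht).hasDerivWithinAt)
      (fun t _ => by simp) (convex_Ioo b e) hs₀m hs
    rw [zero_mul] at h1
    have h2 := norm_le_zero_iff.1 h1
    linarith
  have hye : y b < y e := y_lt x y x' y' L b e hcv hext le_rfl hbe le_rfl
  refine ⟨y e - y b, x b - x e, G s₀, x e * y b - x b * y e,
    (x e ^ 2 - x b ^ 2 - G s₀ * (y e + y b)) / 2,
    x b ^ 2 * y e - x e ^ 2 * y b + G s₀ * y b * y e, by linarith, ?_, ?_⟩
  · obtain ⟨p1, p2⟩ := hpos s₀ hs₀m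
    have ho := hcf.orient b s₀ e hs₀m.1 hs₀m.2 hext.eb
    have e1 : (y e - y b) * G s₀ - (x b - x e) ^ 2 =
        ((x s₀ - x b) * (y e - y b) - (y s₀ - y b) * (x e - x b)) ^ 2 /
          ((y s₀ - y b) * (y e - y s₀)) := by
      rw [hG]
      field_simp
      ring
    rw [e1]
    positivity
  · have hAn : AnalyticOnNhd ℝ (fun s => (y e - y b) * x s ^ 2 + 2 * (x b - x e) * x s * y s +
        G s₀ * y s ^ 2 + 2 * (x e * y b - x b * y e) * x s +
        2 * ((x e ^ 2 - x b ^ 2 - G s₀ * (y e + y b)) / 2) * y s +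
        (x b ^ 2 * y e - x e ^ 2 * y b + G s₀ * y b * y e)) univ := by
      have c : ∀ z : ℝ, AnalyticOnNhd ℝ (fun _ : ℝ => z) univ := fun z => analyticOnNhd_const
      exact ((((((c _).mul (hx.pow 2)).add (((c _).mul hx).mul hy)).add
        ((c _).mul (hy.pow 2))).add ((c _).mul hx)).add ((c _).mul hy)).add (c _)
    have hev : (fun s => (y e - y b) * x s ^ 2 + 2 * (x b - x e) * x s * y s +
        G s₀ * y s ^ 2 + 2 * (x e * y b - x b * y e) * x s +
        2 * ((x e ^ 2 - x b ^ 2 - G s₀ * (y e + y b)) / 2) * y s +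
        (x b ^ 2 * y e - x e ^ 2 * y b + G s₀ * y b * y e)) =ᶠ[𝓝 s₀] 0 := by
      filter_upwards [isOpen_Ioo.mem_nhds hs₀m] with s hs
      obtain ⟨p1, p2⟩ := hpos s hs
      have hg := hconst s hs
      rw [← hg]
      show _ = (0 : ℝ)
      rw [hG]
      field_simp
      ring
    intro s
    have := hAn.eqOn_zero_of_preconnected_of_eventuallyEq_zero isPreconnected_univ (mem_univ s₀) hev
      (mem_univ s)
    exact this

end Pool.Agent.W293.BL
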