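import Pool.Agent.W757.BL.Defs

set_option autoImplicit false

namespace Pool.Agent.W293.BL

open Pool.Agent.W757.BL Filter Topology Set

/-- the algebraic relation -/
theorem law_alg (t X1 Y1 X2 Y2 a c : ℝ) (ht : t ≠ 0) (hY1 : Y1 ≠ 0) (hY2 : Y2 ≠ 0) (hc : c ≠ 0)
    (hm : X1 / Y1 ≠ X2 / Y2)
    (h : (t ^ 2 * X1 * a + Y1 * c) / √((t * X1) ^ 2 + Y1 ^ 2) =
      (t ^ 2 * X2 * a + Y2 * c) / √((t * X2) ^ 2 + Y2 ^ 2)) :
    2 * (a / c) - (X1 / Y1 + X2 / Y2) + t ^ 2 * ((a / c) ^ 2 * (X1 / Y1 + X2 / Y2) -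
      2 * (a / c) * (X1 / Y1) * (X2 / Y2)) = 0 := by
  have hR1 : 0 < (t * X1) ^ 2 + Y1 ^ 2 := by positivity
  have hR2 : 0 < (t * X2) ^ 2 + Y2 ^ 2 := by positivity
  have h1 := Real.sqrt_pos.2 hR1
  have h2 := Real.sqrt_pos.2 hR2
  rw [div_eq_div_iff h1.ne' h2.ne'] at h
  have h3 : (t ^ 2 * X1 * a + Y1 * c) ^ 2 * ((t * X2) ^ 2 + Y2 ^ 2) =
      (t ^ 2 * X2 * a + Y2 * c) ^ 2 * ((t * X1) ^ 2 + Y1 ^ 2) := by
    have s1 := Real.sq_sqrt hR1.le
    have s2 := Real.sq_sqrt hR2.le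
    generalize √((t * X1) ^ 2 + Y1 ^ 2) = w1 at *
    generalize √((t * X2) ^ 2 + Y2 ^ 2) = w2 at *
    rw [← s1, ← s2, ← mul_pow, ← mul_pow, h]
  obtain ⟨m1, rfl⟩ : ∃ m1, X1 = m1 * Y1 := ⟨X1 / Y1, by field_simp⟩
  obtain ⟨m2, rfl⟩ : ∃ m2, X2 = m2 * Y2 := ⟨X2 / Y2, by field_simp⟩
  obtain ⟨κ, rfl⟩ : ∃ κ, a = κ * c := ⟨a / c, by field_simp⟩
  rw [mul_div_cancel_right₀ _ hY1, mul_div_cancel_right₀ _ hY2, mul_div_cancel_right₀ _ hc] at *
  have h5 : Y1 ^ 2 * Y2 ^ 2 * c ^ 2 * t ^ 2 * (m1 - m2) *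
      (2 * κ - (m1 + m2) + t ^ 2 * (κ ^ 2 * (m1 + m2) - 2 * κ * m1 * m2)) = 0 := by
    linear_combination h3
  have h6 : Y1 ^ 2 * Y2 ^ 2 * c ^ 2 * t ^ 2 * (m1 - m2) ≠ 0 := by
    have : m1 - m2 ≠ 0 := sub_ne_zero.2 hm
    positivity
  exact (mul_eq_zero.1 h5).resolve_left h6

theorem t_LAW : S_LAW := by
  intro x y x' y' L hcv hcf l t p r q p₀ r₀ σ hl ht htp hp hr hσ g1 g2 g3 g4 h5 h6 h7 h8 h9 h10 h11
  have hxc : Continuous x := continuous_iff_continuousAt.2 fun s => (hcv.dx s).continuousAt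
  have hyc : Continuous y := continuous_iff_continuousAt.2 fun s => (hcv.dy s).continuousAt
  have hY10 : y q - y p₀ ≠ 0 := by
    intro h
    rw [h, mul_zero] at h8
    exact lt_irrefl _ h8
  have hY20 : y r₀ - y q ≠ 0 := by
    intro h
    rw [h, mul_zero] at h9
    exact lt_irrefl _ h9
  have lX1 : Tendsto (fun k => x q - x (p k)) l (𝓝 (x q - x p₀)) :=
    tendsto_const_nhds.sub ((hxc.tendsto p₀).comp hp)
  have lY1 : Tendsto (fun k => y q - y (p k)) l (𝓝 (y q - y p₀)) :=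
    tendsto_const_nhds.sub ((hyc.tendsto p₀).comp hp)
  have lX2 : Tendsto (fun k => x (r k) - x q) l (𝓝 (x r₀ - x q)) :=
    ((hxc.tendsto r₀).comp hr).sub tendsto_const_nhds
  have lY2 : Tendsto (fun k => y (r k) - y q) l (𝓝 (y r₀ - y q)) :=
    ((hyc.tendsto r₀).comp hr).sub tendsto_const_nhds
  have lm1 := lX1.div lY1 hY10
  have lm2 := lX2.div lY2 hY20
  have hM : (x q - x p₀) / (y q - y p₀) ≠ (x r₀ - x q) / (y r₀ - y q) := by
    intro h
    rw [div_eq_div_iff hY10 hY20] at h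
    have ho := hcf.orient p₀ q r₀ h5 h6 h7
    have e : (x q - x p₀) * (y r₀ - y p₀) - (y q - y p₀) * (x r₀ - x p₀) =
        (x q - x p₀) * (y r₀ - y q) - (x r₀ - x q) * (y q - y p₀) := by ring
    rw [e, h, sub_self] at ho
    exact lt_irrefl _ ho
  have ev1 : ∀ᶠ k in l, y q - y (p k) ≠ 0 := lY1.eventually_ne hY10
  have ev2 : ∀ᶠ k in l, y (r k) - y q ≠ 0 := lY2.eventually_ne hY20
  have ev3 : ∀ᶠ k in l, (x q - x (p k)) / (y q - y (p k)) ≠ (x (r k) - x q) / (y (r k) - y q) := by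
    have := (lm1.sub lm2).eventually_ne (sub_ne_zero.2 hM)
    filter_upwards [this] with k hk
    exact sub_ne_zero.1 hk
  have lall := ((tendsto_const_nhds (x := 2 * (x' q / y' q)) (f := l)).sub (lm1.add lm2)).add
    ((ht.pow 2).mul (((tendsto_const_nhds (x := (x' q / y' q) ^ 2) (f := l)).mul
      (lm1.add lm2)).sub (((tendsto_const_nhds (x := 2 * (x' q / y' q)) (f := l)).mul lm1).mul
        lm2)))
  have lz : Tendsto (fun _ : ℕ => (0 : ℝ)) l (𝓝 0) := tendsto_const_nhds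
  have hev : ∀ᶠ k in l, 2 * (x' q / y' q) - ((x q - x (p k)) / (y q - y (p k)) +
      (x (r k) - x q) / (y (r k) - y q)) + t k ^ 2 * ((x' q / y' q) ^ 2 *
      ((x q - x (p k)) / (y q - y (p k)) + (x (r k) - x q) / (y (r k) - y q)) -
      2 * (x' q / y' q) * ((x q - x (p k)) / (y q - y (p k))) *
        ((x (r k) - x q) / (y (r k) - y q))) = 0 := by
    filter_upwards [ev1, ev2, ev3] with k e1 e2 e3
    refine law_alg (t k) _ _ _ _ (x' q) (y' q) (htp k).ne' e1 e2 h10 e3 ?_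
    have hlaw := h11 k
    simp only [Pool.Agent.W757.BL.h2, Pool.Agent.W757.BL.h1, hh] at hlaw
    have q1 : t k * x q - t k * x (p k) = t k * (x q - x (p k)) := by ring
    have q2 : t k * x (r k) - t k * x q = t k * (x (r k) - x q) := by ring
    simp only [q1, q2] at hlaw
    have q3 : t k ^ 2 * (x q - x (p k)) * x' q + (y q - y (p k)) * y' q =
        t k * (x q - x (p k)) * (t k * x' q) + (y q - y (p k)) * y' q := by ring
    have q4 : t k ^ 2 * (x (r k) - x q) * x' q + (y (r k) - y q) * y' q =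
        t k * (x (r k) - x q) * (t k * x' q) + (y (r k) - y q) * y' q := by ring
    rw [q3, q4]
    rw [neg_div] at hlaw
    linarith
  have hz := tendsto_nhds_unique (lall.congr' (hev.mono fun k hk => by
    simpa using hk)) lz
  have h12 : 2 * x' q / y' q = 2 * (x' q / y' q) := by ring
  rw [h12]
  have : ((0 : ℝ)) ^ 2 = 0 := by norm_num
  rw [this, zero_mul, add_zero] at hz
  linarith

end Pool.Agent.W293.BL
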